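import Mathlib
import Pool.Agent.Y958.SP.Stm

set_option autoImplicit false
set_option linter.all false

/-! # Project SP: few separated points at which the integer multiples are close to integers -/

namespace Pool.Agent.Y447.SP

open Pool.Agent.Y958.SP (nn)

/-- the quotient of consecutive multiples -/
noncomputable def gg (τ : ℕ → ℕ) (j : ℕ) : ℝ := (τ (j + 1) : ℝ) / τ j

/-- the rounded multiples -/
noncomputable def mm (τ : ℕ → ℕ) (a : ℝ) (j : ℕ) : ℤ := round (a * τ j)

/-- the digits -/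
noncomputable def bb (τ : ℕ → ℕ) (a : ℝ) (j : ℕ) : ℤ :=
  mm τ a (j + 1) - round ((mm τ a j : ℝ) * gg τ j)

theorem gg_nonneg (τ : ℕ → ℕ) (j : ℕ) : 0 ≤ gg τ j := by
  unfold gg
  positivity

theorem bb_le {τ : ℕ → ℕ} {j : ℕ} (hτ : 1 ≤ τ j) (a : ℝ) :
    |(bb τ a j : ℝ)| ≤ nn (a * τ (j + 1)) + gg τ j * nn (a * τ j) + 1 / 2 := by
  have hτ' : (0 : ℝ) < τ j := by exact_mod_cast hτ
  have h1 : a * τ j * gg τ j = a * τ (j + 1) := by
    unfold gg
    field_simp
  have h2 := abs_sub_round ((mm τ a j : ℝ) * gg τ j)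
  have h3 : (bb τ a j : ℝ) = -(a * τ (j + 1) - mm τ a (j + 1)) +
      gg τ j * (a * τ j - mm τ a j) +
      ((mm τ a j : ℝ) * gg τ j - round ((mm τ a j : ℝ) * gg τ j)) := by
    unfold bb
    push_cast
    linear_combination -h1
  rw [h3]
  refine (abs_add_le _ _).trans (add_le_add ((abs_add_le _ _).trans (add_le_add ?_ ?_)) h2)
  · rw [abs_neg]
    exact le_rfl
  · rw [abs_mul, abs_of_nonneg (gg_nonneg τ j)]
    exact le_rfl

theorem bb_le' {τ : ℕ → ℕ} {j : ℕ} (hτ : 1 ≤ τ j) (a : ℝ) :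
    |(bb τ a j : ℝ)| ≤ 1 + gg τ j / 2 := by
  have h1 := bb_le hτ a
  have h2 : nn (a * τ (j + 1)) ≤ 1 / 2 := abs_sub_round _
  have h3 : gg τ j * nn (a * τ j) ≤ gg τ j * (1 / 2) :=
    mul_le_mul_of_nonneg_left (abs_sub_round _) (gg_nonneg τ j)
  linarith

theorem bb_zero {τ : ℕ → ℕ} {j : ℕ} (hτ : 1 ≤ τ j) (a g : ℝ) (hg : 1 ≤ g) (hgj : gg τ j ≤ g)
    (h : 16 * g ^ 2 * nn (a * τ j) ^ 2 + 16 * nn (a * τ (j + 1)) ^ 2 < 1) : bb τ a j = 0 := by
  have h0 : 0 ≤ nn (a * τ j) := abs_nonneg _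
  have h0' : 0 ≤ nn (a * τ (j + 1)) := abs_nonneg _
  have h1 : g * nn (a * τ j) < 1 / 4 := by
    by_contra hcon
    push Not at hcon
    nlinarith [sq_nonneg (nn (a * τ (j + 1)))]
  have h2 : nn (a * τ (j + 1)) < 1 / 4 := by
    by_contra hcon
    push Not at hcon
    nlinarith [sq_nonneg (g * nn (a * τ j))]
  have h3 := bb_le hτ a
  have h4 : gg τ j * nn (a * τ j) ≤ g * nn (a * τ j) := mul_le_mul_of_nonneg_right hgj h0
  have h5 : |(bb τ a j : ℝ)| < 1 := by linarith
  have h6 : |bb τ a j| < 1 := by exact_mod_cast h5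
  exact Int.abs_lt_one_iff.1 h6

theorem mm_det {τ : ℕ → ℕ} {a a' : ℝ} {J : ℕ} (h0 : mm τ a 0 = mm τ a' 0)
    (h : ∀ j < J, bb τ a j = bb τ a' j) : ∀ j ≤ J, mm τ a j = mm τ a' j := by
  intro j
  induction j with
  | zero => exact fun _ => h0
  | succ j ih =>
    intro hj
    have h1 := h j (by omega)
    have h2 := ih (by omega)
    unfold bb at h1
    rw [h2] at h1
    exact sub_left_injective h1

/-- the interval of the digits -/
noncomputable def II (τ : ℕ → ℕ) (j : ℕ) : Finset ℤ :=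
  Finset.Icc (-⌊1 + gg τ j / 2⌋) ⌊1 + gg τ j / 2⌋

theorem bb_mem {τ : ℕ → ℕ} {j : ℕ} (hτ : 1 ≤ τ j) (a : ℝ) : bb τ a j ∈ II τ j := by
  have h1 := bb_le' hτ a
  have h2 : |bb τ a j| ≤ ⌊1 + gg τ j / 2⌋ := by
    rw [Int.le_floor]
    push_cast
    exact h1
  unfold II
  rw [Finset.mem_Icc]
  exact abs_le.1 h2

theorem II_card (τ : ℕ → ℕ) (j : ℕ) : ((II τ j).card : ℝ) ≤ gg τ j + 3 := by
  unfold II
  rw [Int.card_Icc]
  have h0 := gg_nonneg τ j
  have h1 : 0 ≤ ⌊1 + gg τ j / 2⌋ := Int.floor_nonneg.2 (by linarith)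
  have h2 : (((⌊1 + gg τ j / 2⌋ + 1 - -⌊1 + gg τ j / 2⌋).toNat : ℕ) : ℝ) =
      ((⌊1 + gg τ j / 2⌋ + 1 - -⌊1 + gg τ j / 2⌋ : ℤ) : ℝ) := by
    rw [← Int.cast_natCast, Int.toNat_of_nonneg (by linarith)]
  rw [h2]
  push_cast
  have h3 := Int.floor_le (1 + gg τ j / 2)
  linarith

open Classical in
/-- the weights -/
noncomputable def wg (τ : ℕ → ℕ) (g lam : ℝ) (j : ℕ) (b : ℤ) : ℝ :=
  if ¬ g < gg τ j ∧ b ≠ 0 then 1 / lam else 1

open Classical in
theorem wg_sum (τ : ℕ → ℕ) {g lam : ℝ} (hg : 1 ≤ g) (hlam : 1 ≤ lam) (j : ℕ) :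
    ∑ b ∈ II τ j, wg τ g lam j b ≤
      if g < gg τ j then gg τ j + 3 else Real.exp ((g + 3) / lam) := by
  have hl : 0 < lam := by linarith
  split_ifs with h
  · have h1 : ∀ b ∈ II τ j, wg τ g lam j b = 1 := by
      intro b _
      unfold wg
      rw [if_neg (fun hc => hc.1 h)]
    rw [Finset.sum_congr rfl h1, Finset.sum_const, nsmul_eq_mul, mul_one]
    exact II_card τ j
  · have h1 : ∀ b ∈ II τ j, wg τ g lam j b ≤ (if b = 0 then 1 else 0) + 1 / lam := by
      intro b _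
      unfold wg
      by_cases hb : b = 0
      · rw [if_neg (fun hc => hc.2 hb), if_pos hb]
        have : 0 < 1 / lam := by positivity
        linarith
      · rw [if_pos ⟨h, hb⟩, if_neg hb, zero_add]
    refine (Finset.sum_le_sum h1).trans ?_
    rw [Finset.sum_add_distrib, Finset.sum_const, nsmul_eq_mul]
    have h2 : ∑ b ∈ II τ j, (if b = 0 then (1 : ℝ) else 0) ≤ 1 := by
      rw [Finset.sum_ite_eq' (II τ j) (0 : ℤ) (fun _ => (1 : ℝ))]
      split_ifs <;> norm_num
    have h3 := II_card τ j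
    have h4 : ((II τ j).card : ℝ) * (1 / lam) ≤ (g + 3) * (1 / lam) :=
      mul_le_mul_of_nonneg_right (by push Not at h; linarith) (by positivity)
    have h5 := Real.add_one_le_exp ((g + 3) / lam)
    have h6 : (g + 3) * (1 / lam) = (g + 3) / lam := by ring
    linarith

theorem wg_pos (τ : ℕ → ℕ) {g lam : ℝ} (hlam : 1 ≤ lam) (j : ℕ) (b : ℤ) :
    0 < wg τ g lam j b := by
  unfold wg
  split_ifs
  · have : 0 < lam := by linarith
    positivity
  · exact one_pos

open Classical in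
/-- the number of nonzero digits at the good steps -/
theorem few {τ : ℕ → ℕ} {J : ℕ} {g σ : ℝ} (hg : 1 ≤ g) (hτ : ∀ j, j ≤ J → 1 ≤ τ j) {a : ℝ}
    (ha : ∑ j ∈ Finset.range (J + 1), nn (a * τ j) ^ 2 ≤ σ) :
    (((Finset.range J).filter fun j => ¬ g < gg τ j ∧ bb τ a j ≠ 0).card : ℝ) ≤
      16 * (g ^ 2 + 1) * σ := by
  have h1 : ∀ j ∈ Finset.range J, (if ¬ g < gg τ j ∧ bb τ a j ≠ 0 then (1 : ℝ) else 0) ≤
      16 * g ^ 2 * nn (a * τ j) ^ 2 + 16 * nn (a * τ (j + 1)) ^ 2 := by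
    intro j hj
    rw [Finset.mem_range] at hj
    split_ifs with h
    · by_contra hcon
      push Not at hcon
      exact h.2 (bb_zero (hτ j hj.le) a g hg (not_lt.1 h.1) hcon)
    · positivity
  have h2 : (((Finset.range J).filter fun j => ¬ g < gg τ j ∧ bb τ a j ≠ 0).card : ℝ) =
      ∑ j ∈ Finset.range J, (if ¬ g < gg τ j ∧ bb τ a j ≠ 0 then (1 : ℝ) else 0) := by
    rw [Finset.natCast_card_filter]
  rw [h2]
  refine (Finset.sum_le_sum h1).trans ?_
  rw [Finset.sum_add_distrib, ← Finset.mul_sum, ← Finset.mul_sum]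
  have h3 : ∑ j ∈ Finset.range J, nn (a * τ j) ^ 2 ≤ σ := by
    refine le_trans ?_ ha
    rw [Finset.sum_range_succ]
    have : 0 ≤ nn (a * τ J) ^ 2 := sq_nonneg _
    linarith
  have h4 : ∑ j ∈ Finset.range J, nn (a * τ (j + 1)) ^ 2 ≤ σ := by
    refine le_trans ?_ ha
    rw [Finset.sum_range_succ']
    have : 0 ≤ nn (a * τ 0) ^ 2 := sq_nonneg _
    linarith
  have h5 : 16 * g ^ 2 * ∑ j ∈ Finset.range J, nn (a * τ j) ^ 2 ≤ 16 * g ^ 2 * σ :=
    mul_le_mul_of_nonneg_left h3 (by positivity)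
  linarith

open Classical in
theorem t_PACK : Pool.Agent.Y958.SP.PACK := by
  intro J τ N g σ lam S hN hg hσ hlam hτ hS hsep
  have hl : 0 < lam := by linarith
  have hN' : (0 : ℝ) < N := by exact_mod_cast hN
  have hτJ : (0 : ℝ) < τ J := by exact_mod_cast hτ J le_rfl
  -- the words
  set wd : ℝ → (Fin J → ℤ) := fun a j => bb τ a j with hwd
  set W : Finset (Fin J → ℤ) := S.image wd with hW
  set s : ℝ := 16 * (g ^ 2 + 1) * σ with hs
  have hs0 : 0 ≤ s := by positivity
  -- weights of the words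
  have hwt : ∀ w ∈ W, 1 ≤ lam ^ s * ∏ j : Fin J, wg τ g lam j (w j) := by
    intro w hw
    obtain ⟨a, ha, rfl⟩ := Finset.mem_image.1 hw
    have h1 : ∏ j : Fin J, wg τ g lam j (wd a j) = (1 / lam) ^
        ((Finset.range J).filter fun j => ¬ g < gg τ j ∧ bb τ a j ≠ 0).card := by
      have h2 : ∏ j : Fin J, wg τ g lam j (wd a j) =
          ∏ j ∈ Finset.range J, wg τ g lam j (bb τ a j) :=
        (Finset.prod_range fun j => wg τ g lam j (bb τ a j)).symm
      rw [h2]
      unfold wg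
      rw [Finset.prod_ite, Finset.prod_const, Finset.prod_const_one, mul_one]
    have h3 := few hg hτ (hS a ha).2.2
    rw [h1, one_div, inv_pow, ← div_eq_mul_inv, one_le_div (by positivity),
      ← Real.rpow_natCast]
    exact Real.rpow_le_rpow_of_exponent_le hlam h3
  have hWsub : W ⊆ Fintype.piFinset fun j : Fin J => II τ j := by
    intro w hw
    obtain ⟨a, ha, rfl⟩ := Finset.mem_image.1 hw
    rw [Fintype.mem_piFinset]
    intro j
    exact bb_mem (hτ j j.2.le) a
  have hWcard : (W.card : ℝ) ≤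
      (∏ j ∈ (Finset.range J).filter (fun j => g < gg τ j), (gg τ j + 3)) *
        (lam ^ s * Real.exp (J * (g + 3) / lam)) := by
    have h1 : (W.card : ℝ) ≤ ∑ w ∈ W, lam ^ s * ∏ j : Fin J, wg τ g lam j (w j) := by
      have := Finset.sum_le_sum hwt
      rwa [Finset.sum_const, nsmul_eq_mul, mul_one] at this
    have h2 : ∑ w ∈ W, lam ^ s * ∏ j : Fin J, wg τ g lam j (w j) ≤
        ∑ w ∈ Fintype.piFinset fun j : Fin J => II τ j,
          lam ^ s * ∏ j : Fin J, wg τ g lam j (w j) := by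
      apply Finset.sum_le_sum_of_subset_of_nonneg hWsub
      intro w _ _
      apply mul_nonneg (by positivity)
      exact Finset.prod_nonneg fun j _ => (wg_pos τ hlam j _).le
    have h3 : ∑ w ∈ Fintype.piFinset fun j : Fin J => II τ j,
          lam ^ s * ∏ j : Fin J, wg τ g lam j (w j) =
        lam ^ s * ∏ j : Fin J, ∑ b ∈ II τ j, wg τ g lam j b := by
      rw [← Finset.mul_sum, Finset.prod_univ_sum]
    have h4 : ∏ j : Fin J, ∑ b ∈ II τ j, wg τ g lam j b ≤
        ∏ j : Fin J, (if g < gg τ j then gg τ j + 3 else Real.exp ((g + 3) / lam)) := by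
      apply Finset.prod_le_prod
      · intro j _
        exact Finset.sum_nonneg fun b _ => (wg_pos τ hlam j b).le
      · intro j _
        exact wg_sum τ hg hlam j
    have h5 : ∏ j : Fin J, (if g < gg τ j then gg τ j + 3 else Real.exp ((g + 3) / lam)) =
        ∏ j ∈ Finset.range J, (if g < gg τ j then gg τ j + 3 else Real.exp ((g + 3) / lam)) :=
      (Finset.prod_range fun j => if g < gg τ j then gg τ j + 3 else
        Real.exp ((g + 3) / lam)).symm
    have h6 : ∏ j ∈ Finset.range J, (if g < gg τ j then gg τ j + 3 else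
        Real.exp ((g + 3) / lam)) ≤
        (∏ j ∈ (Finset.range J).filter (fun j => g < gg τ j), (gg τ j + 3)) *
          Real.exp (J * (g + 3) / lam) := by
      rw [Finset.prod_ite, Finset.prod_const]
      apply mul_le_mul_of_nonneg_left
      · rw [← Real.exp_nat_mul]
        apply Real.exp_le_exp.2
        have i1 : (((Finset.range J).filter fun j => ¬ g < gg τ j).card : ℝ) ≤ J := by
          have := Finset.card_filter_le (Finset.range J) fun j => ¬ g < gg τ j
          rw [Finset.card_range] at this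
          exact_mod_cast this
        have i2 : (J : ℝ) * (g + 3) / lam = J * ((g + 3) / lam) := by ring
        rw [i2]
        exact mul_le_mul_of_nonneg_right i1 (by positivity)
      · apply Finset.prod_nonneg
        intro j _
        have := gg_nonneg τ j
        linarith
    calc (W.card : ℝ) ≤ lam ^ s * ∏ j : Fin J, ∑ b ∈ II τ j, wg τ g lam j b := by
          rw [← h3]
          exact h1.trans h2
      _ ≤ lam ^ s * ((∏ j ∈ (Finset.range J).filter (fun j => g < gg τ j), (gg τ j + 3)) *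
          Real.exp (J * (g + 3) / lam)) := by
          apply mul_le_mul_of_nonneg_left _ (by positivity)
          exact h4.trans (h5.le.trans h6)
      _ = _ := by ring
  -- the injection
  set q : ℝ → ℕ := fun a => ⌊(N : ℝ) * (a - ((mm τ a J : ℝ) - 1 / 2) / τ J)⌋₊ with hq
  have hloc : ∀ a, 0 ≤ (N : ℝ) * (a - ((mm τ a J : ℝ) - 1 / 2) / τ J) ∧
      (N : ℝ) * (a - ((mm τ a J : ℝ) - 1 / 2) / τ J) ≤ N / τ J := by
    intro a
    have h1 : |a * τ J - mm τ a J| ≤ 1 / 2 := abs_sub_round _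
    obtain ⟨h2, h3⟩ := abs_le.1 h1
    have h4 : a - ((mm τ a J : ℝ) - 1 / 2) / τ J = (a * τ J - mm τ a J + 1 / 2) / τ J := by
      field_simp
      ring
    rw [h4]
    constructor
    · apply mul_nonneg hN'.le
      apply div_nonneg _ hτJ.le
      linarith
    · rw [← mul_div_assoc]
      apply div_le_div_of_nonneg_right _ hτJ.le
      nlinarith
  have hmain : S.card ≤ ((Finset.Icc (0 : ℤ) (τ 0)) ×ˢ (W ×ˢ
      Finset.range (⌊(N : ℝ) / τ J⌋₊ + 1))).card := by
    apply Finset.card_le_card_of_injOn fun a => (mm τ a 0, (wd a, q a))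
    · intro a ha
      rw [Finset.mem_coe] at ha
      obtain ⟨h0, h1, _⟩ := hS a ha
      rw [Finset.mem_coe, Finset.mem_product, Finset.mem_product, Finset.mem_Icc,
        Finset.mem_range]
      refine ⟨?_, Finset.mem_image_of_mem _ ha, ?_⟩
      · have h2 : |a * τ 0 - mm τ a 0| ≤ 1 / 2 := abs_sub_round _
        obtain ⟨h3, h4⟩ := abs_le.1 h2
        have h5 : 0 ≤ a * τ 0 := by positivity
        have h6 : a * τ 0 ≤ τ 0 := by
          have : (0 : ℝ) ≤ τ 0 := by positivity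
          nlinarith
        have h7 : (-1 : ℝ) < mm τ a 0 := by linarith
        have h8 : (mm τ a 0 : ℝ) < (τ 0 : ℝ) + 1 := by linarith
        have h9 : (-1 : ℤ) < mm τ a 0 := by exact_mod_cast h7
        have h10 : mm τ a 0 < (τ 0 : ℤ) + 1 := by exact_mod_cast h8
        exact ⟨by linarith, by linarith⟩
      · exact Nat.lt_succ_of_le (Nat.floor_le_floor (hloc a).2)
    · intro a ha a' ha' heq
      rw [Finset.mem_coe] at ha ha'
      simp only [Prod.mk.injEq] at heq
      obtain ⟨h0, h1, h2⟩ := heq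
      have h3 : mm τ a J = mm τ a' J :=
        mm_det h0 (fun j hj => congrFun h1 ⟨j, hj⟩) J le_rfl
      by_contra hne
      have h4 := hsep a ha a' ha' hne
      simp only [hq] at h2
      rw [← h3] at h2
      have i1 := Nat.floor_le (hloc a).1
      have i2 := Nat.lt_floor_add_one ((N : ℝ) * (a - ((mm τ a J : ℝ) - 1 / 2) / τ J))
      have i3 := (hloc a').1
      rw [← h3] at i3
      have i4 := Nat.floor_le i3
      have i5 := Nat.lt_floor_add_one ((N : ℝ) * (a' - ((mm τ a J : ℝ) - 1 / 2) / τ J))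
      rw [h2] at i1 i2
      have h5 : |(N : ℝ) * a - N * a'| < 1 := by
        rw [abs_lt]
        constructor <;> linarith
      rw [← mul_sub, abs_mul, abs_of_pos hN'] at h5
      have h6 : (1 : ℝ) ≤ N * |a - a'| := by
        rw [div_le_iff₀ hN'] at h4
        linarith
      linarith
  rw [Finset.card_product, Finset.card_product, Int.card_Icc, Finset.card_range] at hmain
  have hmain' : (S.card : ℝ) ≤ ((((τ 0 : ℤ) + 1 - 0).toNat : ℕ) : ℝ) * ((W.card : ℝ) *
      ((⌊(N : ℝ) / τ J⌋₊ : ℝ) + 1)) := by exact_mod_cast hmain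
  have k1 : ((((τ 0 : ℤ) + 1 - 0).toNat : ℕ) : ℝ) = (τ 0 : ℝ) + 1 := by
    have : ((τ 0 : ℤ) + 1 - 0).toNat = τ 0 + 1 := by omega
    rw [this]
    push_cast
    rfl
  rw [k1] at hmain'
  have k2 : (⌊(N : ℝ) / τ J⌋₊ : ℝ) ≤ (N : ℝ) / τ J := Nat.floor_le (by positivity)
  set P1 : ℝ := ∏ j ∈ (Finset.range J).filter (fun j => g < gg τ j), (gg τ j + 3) with hP1
  set P2 : ℝ := lam ^ s * Real.exp (J * (g + 3) / lam) with hP2
  have k3 : 0 ≤ P1 * P2 := by
    apply mul_nonneg
    · apply Finset.prod_nonneg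
      intro j _
      have := gg_nonneg τ j
      linarith
    · positivity
  calc (S.card : ℝ) ≤ ((τ 0 : ℝ) + 1) * ((W.card : ℝ) * ((⌊(N : ℝ) / τ J⌋₊ : ℝ) + 1)) := hmain'
    _ ≤ ((τ 0 : ℝ) + 2) * ((P1 * P2) * ((N : ℝ) / τ J + 2)) := by
        apply mul_le_mul (by linarith) _ (by positivity) (by positivity)
        exact mul_le_mul hWcard (by linarith) (by positivity) k3
    _ = ((τ 0 : ℝ) + 2) * ((N : ℝ) / τ J + 2) * P1 * P2 := by ring

end Pool.Agent.Y447.SP
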