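import Mathlib
import Pool.Agent.Y958.SP.Stm2
import Pool.Agent.Y447.SP.Pack

set_option autoImplicit false
set_option linter.all false

/-! # Project SP: few separated points at which the integer multiples are close to integers,
sharper form -/

namespace Pool.Agent.Y447.SP.P2

open Pool.Agent.Y958.SP (nn)
open Pool.Agent.Y447.SP

theorem geo_bd (t : ℝ) (ht : 0 < t) (n : ℕ) :
    ∑ b ∈ Finset.Icc (-(n : ℤ)) n, Real.exp (-(t * |(b : ℝ)|)) ≤
      1 + 2 / t * (1 - Real.exp (-(t * n))) := by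
  induction n with
  | zero => simp
  | succ n ih =>
    have e1 : Finset.Icc (-((n + 1 : ℕ) : ℤ)) ((n + 1 : ℕ) : ℤ) =
        insert (-((n : ℤ) + 1)) (insert ((n : ℤ) + 1) (Finset.Icc (-(n : ℤ)) n)) := by
      ext b
      simp only [Finset.mem_Icc, Finset.mem_insert, Nat.cast_add, Nat.cast_one]
      omega
    rw [e1, Finset.sum_insert (by
      simp only [Finset.mem_Icc, Finset.mem_insert]
      omega), Finset.sum_insert (by
      simp only [Finset.mem_Icc]
      omega)]
    have e2 : |((-((n : ℤ) + 1) : ℤ) : ℝ)| = (n : ℝ) + 1 := by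
      push_cast
      rw [abs_neg, abs_of_nonneg (by positivity)]
    have e3 : |(((n : ℤ) + 1 : ℤ) : ℝ)| = (n : ℝ) + 1 := by
      push_cast
      rw [abs_of_nonneg (by positivity)]
    rw [e2, e3]
    have e4 : Real.exp (-(t * n)) = Real.exp t * Real.exp (-(t * ((n : ℝ) + 1))) := by
      rw [← Real.exp_add]
      congr 1
      ring
    have e5 : t * Real.exp (-(t * ((n : ℝ) + 1))) ≤
        Real.exp (-(t * n)) - Real.exp (-(t * ((n : ℝ) + 1))) := by
      rw [e4]
      have h1 := Real.add_one_le_exp t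
      have h2 := Real.exp_pos (-(t * ((n : ℝ) + 1)))
      nlinarith
    have e6 : 2 * Real.exp (-(t * ((n : ℝ) + 1))) ≤
        2 / t * (Real.exp (-(t * n)) - Real.exp (-(t * ((n : ℝ) + 1)))) := by
      have h1 := mul_le_mul_of_nonneg_left e5 (by positivity : 0 ≤ 2 / t)
      have h2 : 2 / t * (t * Real.exp (-(t * ((n : ℝ) + 1)))) =
          2 * Real.exp (-(t * ((n : ℝ) + 1))) := by
        field_simp
      linarith
    have e7 : ((n + 1 : ℕ) : ℝ) = (n : ℝ) + 1 := by push_cast; ring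
    rw [e7]
    have e8 : 2 / t * (1 - Real.exp (-(t * ((n : ℝ) + 1)))) =
        2 / t * (1 - Real.exp (-(t * n))) +
        2 / t * (Real.exp (-(t * n)) - Real.exp (-(t * ((n : ℝ) + 1)))) := by ring
    rw [e8]
    linarith

theorem II_sum (τ : ℕ → ℕ) {g : ℝ} (hg : 1 ≤ g) {j : ℕ} (h : g < gg τ j) :
    ∑ b ∈ II τ j, Real.exp (-(g / gg τ j * |(b : ℝ)|)) ≤ 3 * gg τ j / g := by
  have hg0 : 0 < g := by linarith
  have hgj : 0 < gg τ j := by linarith
  have h1 : 0 ≤ ⌊1 + gg τ j / 2⌋ := Int.floor_nonneg.2 (by positivity)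
  obtain ⟨n, hn⟩ := Int.eq_ofNat_of_zero_le h1
  unfold II
  rw [hn]
  have ht : 0 < g / gg τ j := by positivity
  have h2 := geo_bd (g / gg τ j) ht n
  have h3 : 2 / (g / gg τ j) * (1 - Real.exp (-(g / gg τ j * n))) ≤ 2 / (g / gg τ j) := by
    have i1 : 0 < Real.exp (-(g / gg τ j * n)) := Real.exp_pos _
    have i2 : 0 < 2 / (g / gg τ j) := by positivity
    nlinarith
  have h4 : 2 / (g / gg τ j) = 2 * gg τ j / g := by
    field_simp
  have h5 : 1 ≤ gg τ j / g := by
    rw [one_le_div hg0]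
    exact h.le
  have h6 : 3 * gg τ j / g = gg τ j / g + 2 * gg τ j / g := by ring
  rw [h4] at h3
  linarith

/-- the exponent at a bad step -/
theorem bad_le {τ : ℕ → ℕ} {j : ℕ} (hτ : 1 ≤ τ j) (a : ℝ) {g : ℝ} (hg : 1 ≤ g)
    (h : g < gg τ j) :
    g / gg τ j * |(bb τ a j : ℝ)| ≤
      1 / 2 + (4 * g ^ 2 * nn (a * τ j) ^ 2 + 4 * g ^ 2 * nn (a * τ (j + 1)) ^ 2) := by
  have hgj : 0 < gg τ j := by linarith
  have hX : 0 ≤ nn (a * τ (j + 1)) := abs_nonneg _
  have hY : 0 ≤ nn (a * τ j) := abs_nonneg _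
  by_cases hb : bb τ a j = 0
  · rw [hb, Int.cast_zero, abs_zero, mul_zero]
    positivity
  · have h1 := bb_le hτ a
    have h2 : (1 : ℝ) ≤ |(bb τ a j : ℝ)| := by
      have := Int.one_le_abs hb
      exact_mod_cast this
    set X := nn (a * τ (j + 1)) with hXd
    set Y := nn (a * τ j) with hYd
    have h3 : |(bb τ a j : ℝ)| ≤ 2 * X + 2 * (gg τ j * Y) := by linarith
    have h4 : g / gg τ j * |(bb τ a j : ℝ)| ≤ g / gg τ j * (2 * X + 2 * (gg τ j * Y)) :=
      mul_le_mul_of_nonneg_left h3 (by positivity)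
    have h5 : g / gg τ j * (2 * X + 2 * (gg τ j * Y)) = g / gg τ j * (2 * X) + 2 * g * Y := by
      field_simp
    have h6 : g / gg τ j ≤ 1 := by
      rw [div_le_one hgj]
      exact h.le
    have h7 : g / gg τ j * (2 * X) ≤ g * (2 * X) :=
      mul_le_mul_of_nonneg_right (h6.trans hg) (by positivity)
    nlinarith [sq_nonneg (2 * g * X - 1 / 2), sq_nonneg (2 * g * Y - 1 / 2)]

open Classical in
/-- the weights -/
noncomputable def wh (τ : ℕ → ℕ) (g lam : ℝ) (j : ℕ) (b : ℤ) : ℝ :=
  if g < gg τ j then Real.exp (-(g / gg τ j * |(b : ℝ)|)) else wg τ g lam j b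

open Classical in
theorem wh_sum (τ : ℕ → ℕ) {g lam : ℝ} (hg : 1 ≤ g) (hlam : 1 ≤ lam) (j : ℕ) :
    ∑ b ∈ II τ j, wh τ g lam j b ≤
      if g < gg τ j then 3 * gg τ j / g else Real.exp ((g + 3) / lam) := by
  have h0 := wg_sum τ hg hlam j
  unfold wh
  split_ifs with h
  · exact II_sum τ hg h
  · rwa [if_neg h] at h0

theorem wh_pos (τ : ℕ → ℕ) {g lam : ℝ} (hlam : 1 ≤ lam) (j : ℕ) (b : ℤ) :
    0 < wh τ g lam j b := by
  unfold wh
  split_ifs
  · exact Real.exp_pos _
  · exact wg_pos τ hlam j b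

open Classical in
/-- the weight of the word of a point -/
theorem word {τ : ℕ → ℕ} {J : ℕ} {g σ lam : ℝ} (hg : 1 ≤ g) (hσ : 0 ≤ σ) (hlam : 1 ≤ lam)
    (hτ : ∀ j, j ≤ J → 1 ≤ τ j) {a : ℝ}
    (ha : ∑ j ∈ Finset.range (J + 1), nn (a * τ j) ^ 2 ≤ σ) :
    1 ≤ (Real.exp 1 * lam) ^ (16 * (g ^ 2 + 1) * σ) *
      Real.exp (((Finset.range J).filter fun j => g < gg τ j).card * (1 / 2)) *
      ∏ j ∈ Finset.range J, wh τ g lam j (bb τ a j) := by
  have hl : 0 < lam := by linarith
  -- the good steps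
  have g1 : ∏ j ∈ (Finset.range J).filter (fun j => ¬ g < gg τ j), wh τ g lam j (bb τ a j) =
      (1 / lam) ^ ((Finset.range J).filter fun j => ¬ g < gg τ j ∧ bb τ a j ≠ 0).card := by
    have i1 : ∏ j ∈ (Finset.range J).filter (fun j => ¬ g < gg τ j), wh τ g lam j (bb τ a j) =
        ∏ j ∈ (Finset.range J).filter (fun j => ¬ g < gg τ j),
          if bb τ a j ≠ 0 then 1 / lam else 1 := by
      refine Finset.prod_congr rfl fun j hj => ?_
      have hj' := (Finset.mem_filter.1 hj).2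
      unfold wh wg
      rw [if_neg hj']
      by_cases hb : bb τ a j = 0
      · rw [if_neg (fun hc => hc.2 hb), if_neg (fun hc => hc hb)]
      · rw [if_pos ⟨hj', hb⟩, if_pos hb]
    rw [i1, Finset.prod_ite, Finset.prod_const, Finset.prod_const_one, mul_one,
      Finset.filter_filter]
  have g2 := few hg hτ ha
  -- the bad steps
  have b1 : Real.exp (-(((Finset.range J).filter fun j => g < gg τ j).card * (1 / 2) +
      8 * g ^ 2 * σ)) ≤
      ∏ j ∈ (Finset.range J).filter (fun j => g < gg τ j), wh τ g lam j (bb τ a j) := by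
    have i1 : ∏ j ∈ (Finset.range J).filter (fun j => g < gg τ j), wh τ g lam j (bb τ a j) =
        Real.exp (∑ j ∈ (Finset.range J).filter (fun j => g < gg τ j),
          -(g / gg τ j * |(bb τ a j : ℝ)|)) := by
      rw [Real.exp_sum]
      refine Finset.prod_congr rfl fun j hj => ?_
      unfold wh
      rw [if_pos (Finset.mem_filter.1 hj).2]
    rw [i1]
    apply Real.exp_le_exp.2
    rw [Finset.sum_neg_distrib]
    apply neg_le_neg
    have i2 : ∑ j ∈ (Finset.range J).filter (fun j => g < gg τ j),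
        g / gg τ j * |(bb τ a j : ℝ)| ≤
        ∑ j ∈ (Finset.range J).filter (fun j => g < gg τ j),
          (1 / 2 + (4 * g ^ 2 * nn (a * τ j) ^ 2 + 4 * g ^ 2 * nn (a * τ (j + 1)) ^ 2)) := by
      refine Finset.sum_le_sum fun j hj => ?_
      rw [Finset.mem_filter, Finset.mem_range] at hj
      exact bad_le (hτ j hj.1.le) a hg hj.2
    refine i2.trans ?_
    rw [Finset.sum_add_distrib, Finset.sum_const, nsmul_eq_mul]
    have i3 : ∑ j ∈ (Finset.range J).filter (fun j => g < gg τ j),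
        (4 * g ^ 2 * nn (a * τ j) ^ 2 + 4 * g ^ 2 * nn (a * τ (j + 1)) ^ 2) ≤
        ∑ j ∈ Finset.range J,
          (4 * g ^ 2 * nn (a * τ j) ^ 2 + 4 * g ^ 2 * nn (a * τ (j + 1)) ^ 2) := by
      apply Finset.sum_le_sum_of_subset_of_nonneg (Finset.filter_subset _ _)
      intro j _ _
      positivity
    have i8 : ∑ j ∈ Finset.range J,
          (4 * g ^ 2 * nn (a * τ j) ^ 2 + 4 * g ^ 2 * nn (a * τ (j + 1)) ^ 2) =
        4 * g ^ 2 * ∑ j ∈ Finset.range J, nn (a * τ j) ^ 2 +
        4 * g ^ 2 * ∑ j ∈ Finset.range J, nn (a * τ (j + 1)) ^ 2 := by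
      rw [Finset.sum_add_distrib, ← Finset.mul_sum, ← Finset.mul_sum]
    have i4 : ∑ j ∈ Finset.range J, nn (a * τ j) ^ 2 ≤ σ := by
      refine le_trans ?_ ha
      rw [Finset.sum_range_succ]
      have : 0 ≤ nn (a * τ J) ^ 2 := sq_nonneg _
      linarith
    have i5 : ∑ j ∈ Finset.range J, nn (a * τ (j + 1)) ^ 2 ≤ σ := by
      refine le_trans ?_ ha
      rw [Finset.sum_range_succ']
      have : 0 ≤ nn (a * τ 0) ^ 2 := sq_nonneg _
      linarith
    have i6 : 4 * g ^ 2 * ∑ j ∈ Finset.range J, nn (a * τ j) ^ 2 ≤ 4 * g ^ 2 * σ :=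
      mul_le_mul_of_nonneg_left i4 (by positivity)
    have i7 : 4 * g ^ 2 * ∑ j ∈ Finset.range J, nn (a * τ (j + 1)) ^ 2 ≤ 4 * g ^ 2 * σ :=
      mul_le_mul_of_nonneg_left i5 (by positivity)
    linarith
  rw [← Finset.prod_filter_mul_prod_filter_not (Finset.range J) (fun j => g < gg τ j), g1]
  set nb : ℕ := ((Finset.range J).filter fun j => g < gg τ j).card with hnb
  set ng : ℕ := ((Finset.range J).filter fun j => ¬ g < gg τ j ∧ bb τ a j ≠ 0).card with hng
  set s : ℝ := 16 * (g ^ 2 + 1) * σ with hs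
  have hs0 : 0 ≤ s := by positivity
  have k1 : lam ^ s * (1 / lam) ^ ng ≥ 1 := by
    rw [one_div, inv_pow, ← div_eq_mul_inv, ge_iff_le, one_le_div (by positivity),
      ← Real.rpow_natCast]
    exact Real.rpow_le_rpow_of_exponent_le hlam g2
  have k2 : (Real.exp 1 * lam) ^ s = Real.exp s * lam ^ s := by
    rw [Real.mul_rpow (Real.exp_pos 1).le hl.le, ← Real.exp_mul, one_mul]
  have k3 : 1 ≤ Real.exp s * Real.exp (nb * (1 / 2)) *
      Real.exp (-((nb : ℝ) * (1 / 2) + 8 * g ^ 2 * σ)) := by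
    rw [← Real.exp_add, ← Real.exp_add]
    apply Real.one_le_exp
    rw [hs]
    nlinarith [mul_nonneg (sq_nonneg g) hσ]
  rw [k2]
  have k4 : 1 ≤ Real.exp s * Real.exp (nb * (1 / 2)) *
      ∏ j ∈ (Finset.range J).filter (fun j => g < gg τ j), wh τ g lam j (bb τ a j) := by
    refine k3.trans ?_
    exact mul_le_mul_of_nonneg_left b1 (by positivity)
  have k5 := one_le_mul_of_one_le_of_one_le k4 k1
  refine k5.trans (le_of_eq ?_)
  ring

open Classical in
theorem t_PACK2 : Pool.Agent.Y958.SP.PACK2 := by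
  intro J τ N g σ lam S hN hg hσ hlam hτ hS hsep
  have hl : 0 < lam := by linarith
  have hN' : (0 : ℝ) < N := by exact_mod_cast hN
  have hτJ : (0 : ℝ) < τ J := by exact_mod_cast hτ J le_rfl
  -- the words
  set wd : ℝ → (Fin J → ℤ) := fun a j => bb τ a j with hwd
  set W : Finset (Fin J → ℤ) := S.image wd with hW
  set s : ℝ := 16 * (g ^ 2 + 1) * σ with hs
  have hs0 : 0 ≤ s := by positivity
  -- weights of the words
  set nb : ℕ := ((Finset.range J).filter fun j => g < gg τ j).card with hnb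
  set Q : ℝ := (Real.exp 1 * lam) ^ s * Real.exp (nb * (1 / 2)) with hQ
  have hQ0 : 0 ≤ Q := by positivity
  have hwt : ∀ w ∈ W, 1 ≤ Q * ∏ j : Fin J, wh τ g lam j (w j) := by
    intro w hw
    obtain ⟨a, ha, rfl⟩ := Finset.mem_image.1 hw
    have h2 : ∏ j : Fin J, wh τ g lam j (wd a j) =
        ∏ j ∈ Finset.range J, wh τ g lam j (bb τ a j) :=
      (Finset.prod_range fun j => wh τ g lam j (bb τ a j)).symm
    rw [h2]
    exact word hg hσ hlam hτ (hS a ha).2.2
  have hWsub : W ⊆ Fintype.piFinset fun j : Fin J => II τ j := by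
    intro w hw
    obtain ⟨a, ha, rfl⟩ := Finset.mem_image.1 hw
    rw [Fintype.mem_piFinset]
    intro j
    exact bb_mem (hτ j j.2.le) a
  have hWcard : (W.card : ℝ) ≤
      (∏ j ∈ (Finset.range J).filter (fun j => g < gg τ j), (5 * gg τ j / g)) *
        ((Real.exp 1 * lam) ^ s * Real.exp (J * (g + 3) / lam)) := by
    have h1 : (W.card : ℝ) ≤ ∑ w ∈ W, Q * ∏ j : Fin J, wh τ g lam j (w j) := by
      have := Finset.sum_le_sum hwt
      rwa [Finset.sum_const, nsmul_eq_mul, mul_one] at this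
    have h2 : ∑ w ∈ W, Q * ∏ j : Fin J, wh τ g lam j (w j) ≤
        ∑ w ∈ Fintype.piFinset fun j : Fin J => II τ j,
          Q * ∏ j : Fin J, wh τ g lam j (w j) := by
      apply Finset.sum_le_sum_of_subset_of_nonneg hWsub
      intro w _ _
      apply mul_nonneg hQ0
      exact Finset.prod_nonneg fun j _ => (wh_pos τ hlam j _).le
    have h3 : ∑ w ∈ Fintype.piFinset fun j : Fin J => II τ j,
          Q * ∏ j : Fin J, wh τ g lam j (w j) =
        Q * ∏ j : Fin J, ∑ b ∈ II τ j, wh τ g lam j b := by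
      rw [← Finset.mul_sum, Finset.prod_univ_sum]
    have h4 : ∏ j : Fin J, ∑ b ∈ II τ j, wh τ g lam j b ≤
        ∏ j : Fin J, (if g < gg τ j then 3 * gg τ j / g else Real.exp ((g + 3) / lam)) := by
      apply Finset.prod_le_prod
      · intro j _
        exact Finset.sum_nonneg fun b _ => (wh_pos τ hlam j b).le
      · intro j _
        exact wh_sum τ hg hlam j
    have h5 : ∏ j : Fin J, (if g < gg τ j then 3 * gg τ j / g else Real.exp ((g + 3) / lam)) =
        ∏ j ∈ Finset.range J, (if g < gg τ j then 3 * gg τ j / g else Real.exp ((g + 3) / lam)) :=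
      (Finset.prod_range fun j => if g < gg τ j then 3 * gg τ j / g else
        Real.exp ((g + 3) / lam)).symm
    have h6 : ∏ j ∈ Finset.range J, (if g < gg τ j then 3 * gg τ j / g else
        Real.exp ((g + 3) / lam)) ≤
        (∏ j ∈ (Finset.range J).filter (fun j => g < gg τ j), (3 * gg τ j / g)) *
          Real.exp (J * (g + 3) / lam) := by
      rw [Finset.prod_ite, Finset.prod_const]
      apply mul_le_mul_of_nonneg_left
      · rw [← Real.exp_nat_mul]
        apply Real.exp_le_exp.2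
        have i1 : (((Finset.range J).filter fun j => ¬ g < gg τ j).card : ℝ) ≤ J := by
          have := Finset.card_filter_le (Finset.range J) fun j => ¬ g < gg τ j
          rw [Finset.card_range] at this
          exact_mod_cast this
        have i2 : (J : ℝ) * (g + 3) / lam = J * ((g + 3) / lam) := by ring
        rw [i2]
        exact mul_le_mul_of_nonneg_right i1 (by positivity)
      · apply Finset.prod_nonneg
        intro j _
        have := gg_nonneg τ j
        positivity
    have h7 : Real.exp (nb * (1 / 2)) *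
        (∏ j ∈ (Finset.range J).filter (fun j => g < gg τ j), (3 * gg τ j / g)) ≤
        ∏ j ∈ (Finset.range J).filter (fun j => g < gg τ j), (5 * gg τ j / g) := by
      rw [Real.exp_nat_mul, hnb, ← Finset.prod_const, ← Finset.prod_mul_distrib]
      apply Finset.prod_le_prod
      · intro j _
        have := gg_nonneg τ j
        positivity
      · intro j _
        have i1 := gg_nonneg τ j
        have i2 : Real.exp (1 / 2) ≤ 5 / 3 := by
          have i3 : Real.exp (1 / 2) ^ 2 = Real.exp 1 := by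
            rw [← Real.exp_nat_mul]
            norm_num
          have i4 := Real.exp_one_lt_d9
          by_contra hcon
          push Not at hcon
          nlinarith
        have i5 : 0 ≤ gg τ j / g := by positivity
        calc Real.exp (1 / 2) * (3 * gg τ j / g) = Real.exp (1 / 2) * (3 * (gg τ j / g)) := by ring
          _ ≤ 5 / 3 * (3 * (gg τ j / g)) := mul_le_mul_of_nonneg_right i2 (by positivity)
          _ = 5 * gg τ j / g := by ring
    calc (W.card : ℝ) ≤ Q * ∏ j : Fin J, ∑ b ∈ II τ j, wh τ g lam j b := by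
          rw [← h3]
          exact h1.trans h2
      _ ≤ Q * ((∏ j ∈ (Finset.range J).filter (fun j => g < gg τ j), (3 * gg τ j / g)) *
          Real.exp (J * (g + 3) / lam)) := by
          apply mul_le_mul_of_nonneg_left _ hQ0
          exact h4.trans (h5.le.trans h6)
      _ = ((Real.exp 1 * lam) ^ s * Real.exp (J * (g + 3) / lam)) *
          (Real.exp (nb * (1 / 2)) *
          (∏ j ∈ (Finset.range J).filter (fun j => g < gg τ j), (3 * gg τ j / g))) := by
          rw [hQ]
          ring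
      _ ≤ ((Real.exp 1 * lam) ^ s * Real.exp (J * (g + 3) / lam)) *
          ∏ j ∈ (Finset.range J).filter (fun j => g < gg τ j), (5 * gg τ j / g) :=
          mul_le_mul_of_nonneg_left h7 (by positivity)
      _ = _ := by ring
  -- the injection
  set q : ℝ → ℕ := fun a => ⌊(N : ℝ) * (a - ((mm τ a J : ℝ) - 1 / 2) / τ J)⌋₊ with hq
  have hloc : ∀ a, 0 ≤ (N : ℝ) * (a - ((mm τ a J : ℝ) - 1 / 2) / τ J) ∧
      (N : ℝ) * (a - ((mm τ a J : ℝ) - 1 / 2) / τ J) ≤ N / τ J := by
    intro a
    have h1 : |a * τ J - mm τ a J| ≤ 1 / 2 := abs_sub_round _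
    obtain ⟨h2, h3⟩ := abs_le.1 h1
    have h4 : a - ((mm τ a J : ℝ) - 1 / 2) / τ J = (a * τ J - mm τ a J + 1 / 2) / τ J := by
      field_simp
      ring
    rw [h4]
    constructor
    · apply mul_nonneg hN'.le
      apply div_nonneg _ hτJ.le
      linarith
    · rw [← mul_div_assoc]
      apply div_le_div_of_nonneg_right _ hτJ.le
      nlinarith
  have hmain : S.card ≤ ((Finset.Icc (0 : ℤ) (τ 0)) ×ˢ (W ×ˢ
      Finset.range (⌊(N : ℝ) / τ J⌋₊ + 1))).card := by
    apply Finset.card_le_card_of_injOn fun a => (mm τ a 0, (wd a, q a))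
    · intro a ha
      rw [Finset.mem_coe] at ha
      obtain ⟨h0, h1, _⟩ := hS a ha
      rw [Finset.mem_coe, Finset.mem_product, Finset.mem_product, Finset.mem_Icc,
        Finset.mem_range]
      refine ⟨?_, Finset.mem_image_of_mem _ ha, ?_⟩
      · have h2 : |a * τ 0 - mm τ a 0| ≤ 1 / 2 := abs_sub_round _
        obtain ⟨h3, h4⟩ := abs_le.1 h2
        have h5 : 0 ≤ a * τ 0 := by positivity
        have h6 : a * τ 0 ≤ τ 0 := by
          have : (0 : ℝ) ≤ τ 0 := by positivity
          nlinarith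
        have h7 : (-1 : ℝ) < mm τ a 0 := by linarith
        have h8 : (mm τ a 0 : ℝ) < (τ 0 : ℝ) + 1 := by linarith
        have h9 : (-1 : ℤ) < mm τ a 0 := by exact_mod_cast h7
        have h10 : mm τ a 0 < (τ 0 : ℤ) + 1 := by exact_mod_cast h8
        exact ⟨by linarith, by linarith⟩
      · exact Nat.lt_succ_of_le (Nat.floor_le_floor (hloc a).2)
    · intro a ha a' ha' heq
      rw [Finset.mem_coe] at ha ha'
      simp only [Prod.mk.injEq] at heq
      obtain ⟨h0, h1, h2⟩ := heq
      have h3 : mm τ a J = mm τ a' J :=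
        mm_det h0 (fun j hj => congrFun h1 ⟨j, hj⟩) J le_rfl
      by_contra hne
      have h4 := hsep a ha a' ha' hne
      simp only [hq] at h2
      rw [← h3] at h2
      have i1 := Nat.floor_le (hloc a).1
      have i2 := Nat.lt_floor_add_one ((N : ℝ) * (a - ((mm τ a J : ℝ) - 1 / 2) / τ J))
      have i3 := (hloc a').1
      rw [← h3] at i3
      have i4 := Nat.floor_le i3
      have i5 := Nat.lt_floor_add_one ((N : ℝ) * (a' - ((mm τ a J : ℝ) - 1 / 2) / τ J))
      rw [h2] at i1 i2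
      have h5 : |(N : ℝ) * a - N * a'| < 1 := by
        rw [abs_lt]
        constructor <;> linarith
      rw [← mul_sub, abs_mul, abs_of_pos hN'] at h5
      have h6 : (1 : ℝ) ≤ N * |a - a'| := by
        rw [div_le_iff₀ hN'] at h4
        linarith
      linarith
  rw [Finset.card_product, Finset.card_product, Int.card_Icc, Finset.card_range] at hmain
  have hmain' : (S.card : ℝ) ≤ ((((τ 0 : ℤ) + 1 - 0).toNat : ℕ) : ℝ) * ((W.card : ℝ) *
      ((⌊(N : ℝ) / τ J⌋₊ : ℝ) + 1)) := by exact_mod_cast hmain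
  have k1 : ((((τ 0 : ℤ) + 1 - 0).toNat : ℕ) : ℝ) = (τ 0 : ℝ) + 1 := by
    have : ((τ 0 : ℤ) + 1 - 0).toNat = τ 0 + 1 := by omega
    rw [this]
    push_cast
    rfl
  rw [k1] at hmain'
  have k2 : (⌊(N : ℝ) / τ J⌋₊ : ℝ) ≤ (N : ℝ) / τ J := Nat.floor_le (by positivity)
  set P1 : ℝ := ∏ j ∈ (Finset.range J).filter (fun j => g < gg τ j), (5 * gg τ j / g) with hP1
  set P2 : ℝ := (Real.exp 1 * lam) ^ s * Real.exp (J * (g + 3) / lam) with hP2
  have k3 : 0 ≤ P1 * P2 := by
    apply mul_nonneg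
    · apply Finset.prod_nonneg
      intro j _
      have := gg_nonneg τ j
      positivity
    · positivity
  calc (S.card : ℝ) ≤ ((τ 0 : ℝ) + 1) * ((W.card : ℝ) * ((⌊(N : ℝ) / τ J⌋₊ : ℝ) + 1)) := hmain'
    _ ≤ ((τ 0 : ℝ) + 2) * ((P1 * P2) * ((N : ℝ) / τ J + 2)) := by
        apply mul_le_mul (by linarith) _ (by positivity) (by positivity)
        exact mul_le_mul hWcard (by linarith) (by positivity) k3
    _ = ((τ 0 : ℝ) + 2) * ((N : ℝ) / τ J + 2) * P1 * P2 := by ring

end Pool.Agent.Y447.SP.P2
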