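import Mathlib
import Pool.Agent.Y958.SP.Stm

set_option autoImplicit false
set_option linter.all false

/-! # Project SP: from a sum of independent variables to fixed multiples -/

namespace Pool.Agent.Y447.SP

open Pool.Agent.Y958.SP (nn ph)
open Pool.Agent.H807R2.Dav (ee ee_add ee_zero norm_ee ee_eq)

theorem nn_nonneg (x : ℝ) : 0 ≤ nn x := abs_nonneg _

theorem nn_neg_le (x : ℝ) : nn (-x) ≤ nn x := by
  unfold nn
  have h := round_le (-x) (-round x)
  refine h.trans (le_of_eq ?_)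
  rw [← abs_neg]
  congr 1
  push_cast
  ring

theorem nn_neg (x : ℝ) : nn (-x) = nn x := by
  apply le_antisymm (nn_neg_le x)
  have := nn_neg_le (-x)
  rwa [neg_neg] at this

theorem nn_natAbs (a : ℝ) (d : ℤ) : nn (a * (d.natAbs : ℝ)) = nn (a * d) := by
  have h : (d.natAbs : ℝ) = |(d : ℝ)| := by
    rw [Nat.cast_natAbs]
    push_cast
    rfl
  rw [h]
  rcases abs_choice (d : ℝ) with h1 | h1
  · rw [h1]
  · rw [h1, mul_neg, nn_neg]

theorem cos_le (y : ℝ) : Real.cos (2 * Real.pi * y) ≤ 1 - 8 * nn y ^ 2 := by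
  have h0 : 0 ≤ nn y := abs_nonneg _
  have h1 : nn y ≤ 1 / 2 := abs_sub_round _
  have h2 : Real.cos (2 * Real.pi * y) = Real.cos (2 * (Real.pi * nn y)) := by
    have e1 : Real.cos (2 * Real.pi * y) =
        Real.cos (2 * Real.pi * y - (round y : ℤ) * (2 * Real.pi)) := by
      rw [Real.cos_sub_int_mul_two_pi]
    rw [e1, ← Real.cos_abs]
    congr 1
    unfold nn
    rw [show 2 * Real.pi * y - (round y : ℤ) * (2 * Real.pi) =
      2 * Real.pi * (y - round y) by ring, abs_mul, abs_of_pos (by positivity)]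
    ring
  have h3 : 2 * nn y ≤ Real.sin (Real.pi * nn y) := by
    have e1 := Real.mul_le_sin (x := Real.pi * nn y) (by positivity)
      (by nlinarith [Real.pi_pos])
    have e2 : 2 / Real.pi * (Real.pi * nn y) = 2 * nn y := by
      field_simp
    linarith
  have h4 : Real.cos (2 * (Real.pi * nn y)) = 1 - 2 * Real.sin (Real.pi * nn y) ^ 2 := by
    have := Real.sin_sq_add_cos_sq (Real.pi * nn y)
    rw [Real.cos_two_mul]
    linarith
  rw [h2, h4]
  nlinarith

/-- the Fourier transform of one variable -/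
noncomputable def ff {m : ℕ} (p : Fin m → ℝ) (x : Fin m → ℤ) (a : ℝ) : ℂ :=
  ∑ k, (p k : ℂ) * ee ((x k : ℝ) * a)

/-- the averaged squared distance -/
noncomputable def en {m : ℕ} (p : Fin m → ℝ) (x : Fin m → ℤ) (a : ℝ) : ℝ :=
  ∑ k, ∑ l, p k * p l * nn (a * ((x k - x l : ℤ) : ℝ)) ^ 2

theorem ff_sq {m : ℕ} (p : Fin m → ℝ) (x : Fin m → ℤ) (hp : ∀ k, 0 ≤ p k) (hs : ∑ k, p k = 1)
    (a : ℝ) : ‖ff p x a‖ ^ 2 ≤ 1 - 8 * en p x a := by
  have hre : (ff p x a).re = ∑ k, p k * Real.cos (2 * Real.pi * ((x k : ℝ) * a)) := by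
    unfold ff
    rw [Complex.re_sum]
    refine Finset.sum_congr rfl fun k _ => ?_
    rw [Complex.re_ofReal_mul, ee_eq, Complex.exp_ofReal_mul_I_re]
  have him : (ff p x a).im = ∑ k, p k * Real.sin (2 * Real.pi * ((x k : ℝ) * a)) := by
    unfold ff
    rw [Complex.im_sum]
    refine Finset.sum_congr rfl fun k _ => ?_
    rw [Complex.im_ofReal_mul, ee_eq, Complex.exp_ofReal_mul_I_im]
  rw [Complex.sq_norm, Complex.normSq_apply, hre, him, Finset.sum_mul_sum, Finset.sum_mul_sum,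
    ← Finset.sum_add_distrib]
  have h1 : ∑ k, ∑ l, p k * p l = 1 := by
    rw [← Finset.sum_mul_sum, hs, one_mul]
  have h2 : 1 - 8 * en p x a =
      ∑ k, ∑ l, p k * p l * (1 - 8 * nn (a * ((x k - x l : ℤ) : ℝ)) ^ 2) := by
    have e1 : ∑ k, ∑ l, p k * p l * (1 - 8 * nn (a * ((x k - x l : ℤ) : ℝ)) ^ 2) =
        ∑ k, ∑ l, p k * p l - 8 * en p x a := by
      unfold en
      rw [Finset.mul_sum, ← Finset.sum_sub_distrib]
      refine Finset.sum_congr rfl fun k _ => ?_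
      rw [Finset.mul_sum, ← Finset.sum_sub_distrib]
      refine Finset.sum_congr rfl fun l _ => ?_
      ring
    rw [e1, h1]
  rw [h2]
  refine Finset.sum_le_sum fun k _ => ?_
  rw [← Finset.sum_add_distrib]
  refine Finset.sum_le_sum fun l _ => ?_
  have h3 := cos_le (a * ((x k - x l : ℤ) : ℝ))
  have h4 : Real.cos (2 * Real.pi * (a * ((x k - x l : ℤ) : ℝ))) =
      Real.cos (2 * Real.pi * ((x k : ℝ) * a)) * Real.cos (2 * Real.pi * ((x l : ℝ) * a)) +
      Real.sin (2 * Real.pi * ((x k : ℝ) * a)) * Real.sin (2 * Real.pi * ((x l : ℝ) * a)) := by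
    rw [← Real.cos_sub]
    congr 1
    push_cast
    ring
  have h5 := mul_le_mul_of_nonneg_left h3 (mul_nonneg (hp k) (hp l))
  rw [h4] at h5
  linarith

theorem ee_sum {ι : Type} (s : Finset ι) (f : ι → ℝ) : ee (∑ i ∈ s, f i) = ∏ i ∈ s, ee (f i) := by
  classical
  induction s using Finset.induction_on with
  | empty => simp [ee_zero]
  | insert i s hi ih => rw [Finset.sum_insert hi, Finset.prod_insert hi, ee_add, ih]

theorem ph_eq {J m : ℕ} (p : Fin J → Fin m → ℝ) (x : Fin J → Fin m → ℤ) (c : ℤ) (a : ℝ) :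
    ph (fun ω : Fin J → Fin m => ∏ j, p j (ω j)) (fun ω => c + ∑ j, x j (ω j)) a =
      ee ((c : ℝ) * a) * ∏ j, ff (p j) (x j) a := by
  unfold ph ff
  rw [Finset.prod_univ_sum, Fintype.piFinset_univ, Finset.mul_sum]
  refine Finset.sum_congr rfl fun ω _ => ?_
  rw [Finset.prod_mul_distrib]
  have h1 : ee (((c + ∑ j, x j (ω j) : ℤ) : ℝ) * a) =
      ee ((c : ℝ) * a) * ∏ j, ee ((x j (ω j) : ℝ) * a) := by
    rw [← ee_sum, ← ee_add]
    congr 1
    push_cast
    rw [add_mul, Finset.sum_mul]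
  rw [h1]
  push_cast
  ring

theorem en_bound {J m : ℕ} (p : Fin J → Fin m → ℝ) (x : Fin J → Fin m → ℤ) (c : ℤ) (a ρ : ℝ)
    (hp : ∀ j k, 0 ≤ p j k) (hs : ∀ j, ∑ k, p j k = 1) (hρ : 0 < ρ)
    (h : ρ < ‖ph (fun ω : Fin J → Fin m => ∏ j, p j (ω j)) (fun ω => c + ∑ j, x j (ω j)) a‖) :
    4 * ∑ j, en (p j) (x j) a ≤ Real.log (1 / ρ) := by
  rw [ph_eq, norm_mul, norm_ee, one_mul, norm_prod] at h
  have h1 : ρ ^ 2 ≤ (∏ j, ‖ff (p j) (x j) a‖) ^ 2 := pow_le_pow_left₀ hρ.le h.le 2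
  rw [← Finset.prod_pow] at h1
  have h2 : ∏ j, ‖ff (p j) (x j) a‖ ^ 2 ≤ ∏ j, Real.exp (-(8 * en (p j) (x j) a)) := by
    apply Finset.prod_le_prod
    · intro j _
      positivity
    · intro j _
      have h3 := ff_sq (p j) (x j) (hp j) (hs j) a
      have h4 := Real.add_one_le_exp (-(8 * en (p j) (x j) a))
      linarith
  rw [← Real.exp_sum] at h2
  have h5 := Real.log_le_log (by positivity) (h1.trans h2)
  rw [Real.log_exp, Real.log_pow, Finset.sum_neg_distrib, ← Finset.mul_sum] at h5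
  rw [one_div, Real.log_inv]
  push_cast at h5
  linarith

theorem t_IND : Pool.Agent.Y958.SP.IND := by
  classical
  intro J m p x c T B η ρ S hp hs hη hρ hT hadm hS
  -- choice of the pairs
  have hch : ∀ j : Fin J, ∃ t : ℕ, (T j ≤ t ∧ (t : ℝ) ≤ B * T j) ∧
      η * ∑ a ∈ S, nn (a * t) ^ 2 ≤ ∑ a ∈ S, en (p j) (x j) a := by
    intro j
    set A : Finset (Fin m × Fin m) := Finset.univ.filter fun kl =>
      T j ≤ |((x j kl.1 - x j kl.2 : ℤ) : ℝ)| ∧ |((x j kl.1 - x j kl.2 : ℤ) : ℝ)| ≤ B * T j with hA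
    have h1 : η ≤ ∑ kl ∈ A, p j kl.1 * p j kl.2 := by
      refine (hadm j).trans (le_of_eq ?_)
      rw [hA, Finset.sum_filter, ← Finset.univ_product_univ, Finset.sum_product]
    have h2 : A.Nonempty := by
      by_contra hcon
      rw [Finset.not_nonempty_iff_eq_empty] at hcon
      rw [hcon, Finset.sum_empty] at h1
      linarith
    obtain ⟨kl, hkl, hmin⟩ := Finset.exists_min_image A
      (fun kl => ∑ a ∈ S, nn (a * ((x j kl.1 - x j kl.2 : ℤ) : ℝ)) ^ 2) h2
    have hkl' := (Finset.mem_filter.1 hkl).2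
    have e0 : (((x j kl.1 - x j kl.2).natAbs : ℕ) : ℝ) = |((x j kl.1 - x j kl.2 : ℤ) : ℝ)| := by
      rw [Nat.cast_natAbs]
      push_cast
      rfl
    refine ⟨(x j kl.1 - x j kl.2).natAbs, ?_, ?_⟩
    · rw [e0]
      exact hkl'
    · set F : ℝ := ∑ a ∈ S, nn (a * (((x j kl.1 - x j kl.2).natAbs : ℕ) : ℝ)) ^ 2 with hF
      have hF' : F = ∑ a ∈ S, nn (a * ((x j kl.1 - x j kl.2 : ℤ) : ℝ)) ^ 2 := by
        rw [hF]
        refine Finset.sum_congr rfl fun a _ => ?_
        rw [nn_natAbs]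
      have hF0 : 0 ≤ F := Finset.sum_nonneg fun a _ => sq_nonneg _
      calc η * F ≤ (∑ kl ∈ A, p j kl.1 * p j kl.2) * F := mul_le_mul_of_nonneg_right h1 hF0
        _ = ∑ kl ∈ A, p j kl.1 * p j kl.2 * F := Finset.sum_mul _ _ _
        _ ≤ ∑ kl ∈ A, p j kl.1 * p j kl.2 *
            ∑ a ∈ S, nn (a * ((x j kl.1 - x j kl.2 : ℤ) : ℝ)) ^ 2 := by
          refine Finset.sum_le_sum fun kl' h' => ?_
          apply mul_le_mul_of_nonneg_left _ (mul_nonneg (hp _ _) (hp _ _))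
          rw [hF']
          exact hmin kl' h'
        _ ≤ ∑ kl : Fin m × Fin m, p j kl.1 * p j kl.2 *
            ∑ a ∈ S, nn (a * ((x j kl.1 - x j kl.2 : ℤ) : ℝ)) ^ 2 := by
          apply Finset.sum_le_sum_of_subset_of_nonneg (Finset.filter_subset _ _)
          intro kl' _ _
          exact mul_nonneg (mul_nonneg (hp _ _) (hp _ _))
            (Finset.sum_nonneg fun a _ => sq_nonneg _)
        _ = ∑ a ∈ S, en (p j) (x j) a := by
          unfold en
          rw [← Finset.univ_product_univ, Finset.sum_product, Finset.sum_comm' (t' := Finset.univ)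
            (s' := fun _ => S) (by simp)]
          refine Finset.sum_congr rfl fun k _ => ?_
          rw [Finset.sum_comm]
          refine Finset.sum_congr rfl fun l _ => ?_
          rw [Finset.mul_sum]
  choose τ hτ1 hτ2 using hch
  refine ⟨τ, hτ1, ?_⟩
  set σ : ℝ := Real.log (1 / ρ) / (2 * η) with hσ
  refine ⟨S.filter fun a => ∑ j, nn (a * τ j) ^ 2 ≤ σ, Finset.filter_subset _ _, ?_,
    fun a ha => (Finset.mem_filter.1 ha).2⟩
  rcases S.eq_empty_or_nonempty with hS0 | hS0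
  · rw [hS0]
    simp
  -- the total mass
  have htot : ∑ a ∈ S, ∑ j, nn (a * τ j) ^ 2 ≤ S.card * (σ / 2) := by
    have h1 : η * ∑ a ∈ S, ∑ j, nn (a * τ j) ^ 2 ≤ ∑ a ∈ S, ∑ j, en (p j) (x j) a := by
      rw [Finset.sum_comm, Finset.mul_sum, Finset.sum_comm (s := S)]
      exact Finset.sum_le_sum fun j _ => hτ2 j
    have h2 : ∑ a ∈ S, ∑ j, en (p j) (x j) a ≤ S.card * (Real.log (1 / ρ) / 4) := by
      rw [← nsmul_eq_mul]
      apply Finset.sum_le_card_nsmul
      intro a ha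
      have := en_bound p x c a ρ hp hs hρ (hS a ha)
      linarith
    have h3 : η * (S.card * (σ / 2)) = S.card * (Real.log (1 / ρ) / 4) := by
      rw [hσ]
      field_simp
      ring
    have h4 := h1.trans h2
    rw [← h3] at h4
    exact le_of_mul_le_mul_left h4 hη
  have hσ0 : 0 ≤ σ := by
    obtain ⟨a, ha⟩ := hS0
    have h1 := en_bound p x c a ρ hp hs hρ (hS a ha)
    have h2 : 0 ≤ ∑ j, en (p j) (x j) a := by
      apply Finset.sum_nonneg
      intro j _
      unfold en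
      refine Finset.sum_nonneg fun k _ => Finset.sum_nonneg fun l _ => ?_
      exact mul_nonneg (mul_nonneg (hp _ _) (hp _ _)) (sq_nonneg _)
    have h3 : 0 ≤ Real.log (1 / ρ) := by linarith
    rw [hσ]
    positivity
  by_contra hcon
  push Not at hcon
  have h1 := Finset.card_filter_add_card_filter_not (s := S)
    (fun a => ∑ j, nn (a * τ j) ^ 2 ≤ σ)
  set S₁ := S.filter fun a => ∑ j, nn (a * τ j) ^ 2 ≤ σ with hS₁
  set S₂ := S.filter fun a => ¬ ∑ j, nn (a * τ j) ^ 2 ≤ σ with hS₂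
  have h2 : S₂.Nonempty := by
    rw [← Finset.card_pos]
    omega
  have h3 : (S₂.card : ℝ) * σ < ∑ a ∈ S₂, ∑ j, nn (a * τ j) ^ 2 := by
    rw [← nsmul_eq_mul, ← Finset.sum_const]
    apply Finset.sum_lt_sum_of_nonempty h2
    intro a ha
    exact not_le.1 (Finset.mem_filter.1 ha).2
  have h4 : ∑ a ∈ S₂, ∑ j, nn (a * τ j) ^ 2 ≤ ∑ a ∈ S, ∑ j, nn (a * τ j) ^ 2 := by
    apply Finset.sum_le_sum_of_subset_of_nonneg (Finset.filter_subset _ _)
    intro a _ _
    exact Finset.sum_nonneg fun j _ => sq_nonneg _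
  have h5 : (S.card : ℝ) ≤ 2 * S₂.card := by
    have : S.card ≤ 2 * S₂.card := by omega
    exact_mod_cast this
  have h6 : (S.card : ℝ) * (σ / 2) ≤ 2 * S₂.card * (σ / 2) :=
    mul_le_mul_of_nonneg_right h5 (by positivity)
  linarith

end Pool.Agent.Y447.SP
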