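import Mathlib
import Pool.Agent.Y958.SP.Stm

set_option autoImplicit false
set_option linter.all false

/-! # Project SP: choice of the parameters -/

namespace Pool.Agent.Y447.SP

open Filter Topology

theorem log_sq_le (ε : ℝ) (hε : 0 < ε) (s : ℝ) (hs : 0 < s) :
    ∀ᶠ X : ℝ in atTop, Real.log X ^ 2 ≤ ε * X ^ s := by
  have h1 := isLittleO_log_rpow_rpow_atTop (s := s) 2 hs
  have h2 := h1.def hε
  filter_upwards [h2, eventually_ge_atTop (1 : ℝ)] with X hX hX1
  have h3 : Real.log X ^ (2 : ℝ) = Real.log X ^ 2 := by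
    rw [← Real.rpow_natCast]
    norm_num
  rw [h3, Real.norm_of_nonneg (pow_nonneg (Real.log_nonneg hX1) 2),
    Real.norm_of_nonneg (Real.rpow_nonneg (by linarith) s)] at hX
  exact hX

theorem t_PARL : Pool.Agent.Y958.SP.PARL := by
  intro κ η δ A B U hκ hη hδ hA hB hU
  set K : ℝ := (A + 3) * (16 * (3 * B ^ 2)) * (U / (2 * η)) with hK
  have hK0 : 0 ≤ K := by positivity
  have ev : ∀ᶠ L : ℝ in atTop, ∀ J : ℕ, (J : ℝ) ≤ L ^ A → ∃ lam : ℝ, 1 ≤ lam ∧
      lam ^ (16 * ((B * (1 + L ^ (1 / 2 - δ))) ^ 2 + 1) * (U * Real.log L / (2 * η))) *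
        Real.exp (J * (B * (1 + L ^ (1 / 2 - δ)) + 3) / lam) ≤ Real.exp (κ * L) := by
    filter_upwards [eventually_ge_atTop (1 : ℝ), eventually_ge_atTop (10 * B / κ),
      log_sq_le (κ / (4 * (K + 1))) (by positivity) 1 one_pos,
      log_sq_le (κ / (4 * (K + 1))) (by positivity) (2 * δ) (by positivity)] with L h1 h2 h3 h4
    intro J hJ
    have hL0 : 0 < L := by linarith
    have hlog : 0 ≤ Real.log L := Real.log_nonneg h1
    rw [Real.rpow_one] at h3
    refine ⟨L ^ (A + 3), Real.one_le_rpow h1 (by linarith), ?_⟩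
    set x : ℝ := L ^ (1 / 2 - δ) with hx
    have hx0 : 0 < x := Real.rpow_pos_of_pos hL0 _
    have hx2 : x ^ 2 = L ^ (1 - 2 * δ) := by
      rw [hx, ← Real.rpow_natCast, ← Real.rpow_mul hL0.le]
      congr 1
      push_cast
      ring
    have hx1 : x ≤ L := by
      calc x ≤ L ^ (1 : ℝ) := Real.rpow_le_rpow_of_exponent_le h1 (by linarith)
        _ = L := Real.rpow_one L
    -- first factor
    have e1 : (L ^ (A + 3)) ^ (16 * ((B * (1 + x)) ^ 2 + 1) * (U * Real.log L / (2 * η))) =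
        Real.exp ((A + 3) * Real.log L *
          (16 * ((B * (1 + x)) ^ 2 + 1) * (U * Real.log L / (2 * η)))) := by
      rw [Real.rpow_def_of_pos (Real.rpow_pos_of_pos hL0 _), Real.log_rpow hL0]
    have e2 : (A + 3) * Real.log L * (16 * ((B * (1 + x)) ^ 2 + 1) *
        (U * Real.log L / (2 * η))) ≤ κ / 2 * L := by
      have g1 : (B * (1 + x)) ^ 2 + 1 ≤ 3 * B ^ 2 * (1 + x ^ 2) := by
        have g2 : 1 ≤ B ^ 2 := by nlinarith
        nlinarith [sq_nonneg (B * (1 - x)), sq_nonneg (B * x)]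
      have g3 : (A + 3) * Real.log L * (16 * ((B * (1 + x)) ^ 2 + 1) *
          (U * Real.log L / (2 * η))) =
          ((A + 3) * 16 * (U / (2 * η)) * Real.log L ^ 2) * ((B * (1 + x)) ^ 2 + 1) := by ring
      have g4 : ((A + 3) * 16 * (U / (2 * η)) * Real.log L ^ 2) * ((B * (1 + x)) ^ 2 + 1) ≤
          ((A + 3) * 16 * (U / (2 * η)) * Real.log L ^ 2) * (3 * B ^ 2 * (1 + x ^ 2)) :=
        mul_le_mul_of_nonneg_left g1 (by positivity)
      have g5 : ((A + 3) * 16 * (U / (2 * η)) * Real.log L ^ 2) * (3 * B ^ 2 * (1 + x ^ 2)) =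
          K * Real.log L ^ 2 + K * (x ^ 2 * Real.log L ^ 2) := by
        rw [hK]
        ring
      have g6 : K * Real.log L ^ 2 ≤ κ / 4 * L := by
        have i1 : K * Real.log L ^ 2 ≤ K * (κ / (4 * (K + 1)) * L) :=
          mul_le_mul_of_nonneg_left h3 hK0
        have i2 : K * (κ / (4 * (K + 1)) * L) = (K / (K + 1)) * (κ / 4 * L) := by
          field_simp
        have i3 : K / (K + 1) ≤ 1 := by
          rw [div_le_one (by linarith)]
          linarith
        have i4 : (K / (K + 1)) * (κ / 4 * L) ≤ 1 * (κ / 4 * L) :=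
          mul_le_mul_of_nonneg_right i3 (by positivity)
        linarith
      have g7 : K * (x ^ 2 * Real.log L ^ 2) ≤ κ / 4 * L := by
        have i0 : x ^ 2 * Real.log L ^ 2 ≤ κ / (4 * (K + 1)) * L := by
          have j1 : x ^ 2 * Real.log L ^ 2 ≤ x ^ 2 * (κ / (4 * (K + 1)) * L ^ (2 * δ)) :=
            mul_le_mul_of_nonneg_left h4 (by positivity)
          have j2 : x ^ 2 * (κ / (4 * (K + 1)) * L ^ (2 * δ)) = κ / (4 * (K + 1)) * L := by
            rw [hx2]
            have j3 : L ^ (1 - 2 * δ) * L ^ (2 * δ) = L := by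
              rw [← Real.rpow_add hL0, sub_add_cancel, Real.rpow_one]
            calc L ^ (1 - 2 * δ) * (κ / (4 * (K + 1)) * L ^ (2 * δ)) =
                κ / (4 * (K + 1)) * (L ^ (1 - 2 * δ) * L ^ (2 * δ)) := by ring
              _ = _ := by rw [j3]
          linarith
        have i1 : K * (x ^ 2 * Real.log L ^ 2) ≤ K * (κ / (4 * (K + 1)) * L) :=
          mul_le_mul_of_nonneg_left i0 hK0
        have i2 : K * (κ / (4 * (K + 1)) * L) = (K / (K + 1)) * (κ / 4 * L) := by
          field_simp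
        have i3 : K / (K + 1) ≤ 1 := by
          rw [div_le_one (by linarith)]
          linarith
        have i4 : (K / (K + 1)) * (κ / 4 * L) ≤ 1 * (κ / 4 * L) :=
          mul_le_mul_of_nonneg_right i3 (by positivity)
        linarith
      linarith
    -- second factor
    have e3 : (J : ℝ) * (B * (1 + x) + 3) / L ^ (A + 3) ≤ κ / 2 * L := by
      have g1 : L ^ (A + 3) = L ^ A * L ^ 3 := by
        rw [Real.rpow_add hL0]
        norm_num
      have hLA : 0 < L ^ A := Real.rpow_pos_of_pos hL0 _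
      have g2 : (J : ℝ) * (B * (1 + x) + 3) / L ^ (A + 3) ≤
          L ^ A * (5 * B * L) / (L ^ A * L ^ 3) := by
        rw [g1]
        apply div_le_div_of_nonneg_right _ (by positivity)
        have g3 : B * (1 + x) + 3 ≤ 5 * B * L := by
          have i1 : B * x ≤ B * L := mul_le_mul_of_nonneg_left hx1 (by linarith)
          have i2 : B * 1 ≤ B * L := mul_le_mul_of_nonneg_left h1 (by linarith)
          nlinarith
        exact mul_le_mul hJ g3 (by positivity) hLA.le
      have g4 : L ^ A * (5 * B * L) / (L ^ A * L ^ 3) = 5 * B / L ^ 2 := by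
        field_simp
      have g5 : 5 * B / L ^ 2 ≤ 5 * B := by
        rw [div_le_iff₀ (by positivity)]
        have : 1 ≤ L ^ 2 := by nlinarith
        nlinarith
      have g6 : 5 * B ≤ κ / 2 * L := by
        rw [div_le_iff₀ hκ] at h2
        linarith
      linarith
    rw [e1, ← Real.exp_add]
    apply Real.exp_le_exp.2
    linarith
  have hlogN : Tendsto (fun N : ℕ => Real.log (N : ℝ)) atTop atTop :=
    Real.tendsto_log_atTop.comp tendsto_natCast_atTop_atTop
  obtain ⟨N₀, hN₀⟩ := eventually_atTop.1 ((hlogN.eventually ev).and (eventually_ge_atTop 1))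
  refine ⟨N₀, fun N hN J hJ => ?_⟩
  obtain ⟨h1, h2⟩ := hN₀ N hN
  obtain ⟨lam, h3, h4⟩ := h1 J hJ
  refine ⟨lam, h3, h4.trans (le_of_eq ?_)⟩
  have hN0 : (0 : ℝ) < N := by exact_mod_cast h2
  rw [Real.rpow_def_of_pos hN0, mul_comm]

end Pool.Agent.Y447.SP
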